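import Pool.Agent.Helper33.KT.Fft

/-!
The insertion of a pairing.
-/

set_option autoImplicit false

open Matrix H77MT Pool.Agent.Helper79.KN Pool.Agent.Helper33.KN

namespace Pool.Agent.Helper73.KT

variable {X n K ι : Type} [Fintype n] [DecidableEq n] [Field K] [Fintype ι] [DecidableEq ι]

theorem con_eq_ins (a b : ι) (M : (ι → n) → K) : con a b M = Pool.Agent.Helper33.KT.insL a b (contr a b M) := by
  funext s
  show (if s a = s b then ∑ d, M (Function.update (Function.update s a d) b d) else 0) =
    if s a = s b then contr a b M (fun c => s c.1) else 0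
  split_ifs
  · refine Finset.sum_congr rfl fun d _ => ?_
    rw [Pool.Agent.Helper33.KT.update_eq_ext]
    rfl
  · rfl

/-- the insertion of a pairing -/
theorem con_of_contr (i : ι → X × Bool) {a b : ι} (hab : a ≠ b) (h : i b = ((i a).1, !(i a).2)) (q : ℕ) (M : (ι → n) → K)
    (hM : contr a b M ∈ pairs K n (fun c : Rest a b => i c.1) q) : con a b M ∈ pairs K n i (q + 1) := by
  rw [con_eq_ins]
  exact Pool.Agent.Helper33.KT.ins_mem hab h hM

end Pool.Agent.Helper73.KT
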