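import Pool.Agent.Helper40.PC.Dual

/-!
# Covers of exponent `r ^ e`: the congruence modulo `r` (helper33, after helper40's BranchCurves)

`CoverH2 k A B L V ι r e` lists properties of the geometric Frobenius on `V = H²(X̄, L)` for smooth
projective models `X` of étale abelian covers of `U = Spec A` with a group of exponent dividing
`r ^ e`.
-/

open Module Polynomial

namespace Pool.Agent.Helper33.KT

open Pool.Agent.Helper73.KT Pool.Agent.Helper40.PC

section abstract_part

variable {L κ W : Type*} [Field L] [CharZero L] [IsAlgClosed L] [Field κ] [AddCommGroup W]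
  [Module L W] [FiniteDimensional L W] (M : integralClosure ℤ L →+* κ)

/-- The residues of the eigenvalues are the elements of `S`. -/
theorem res_mem {T : End L W} (B : Multiset L) (S : Finset κ) (h0 : (0 : κ) ∉ S)
    (hdim : finrank L W + Multiset.card B ≤ S.card)
    (hps : ∀ j : ℕ, 0 < j → ∑ c ∈ eigs T, (mult T c : κ) * res M c ^ j +
      (B.map (fun b => res M b ^ j)).sum = ∑ z ∈ S, z ^ j) {a : L} (ha : a ∈ eigs T) :
    res M a ∈ S := by
  classical
  by_contra h
  have hS : ∀ x ∈ S, 1 ≤ nres M T B x := by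
    intro x hx
    have h1 := nres_cast M (T := T) B S (fun _ => 1) (by simpa using hps) x
      (fun h => h0 (h ▸ hx))
    rw [if_pos hx] at h1
    rw [Nat.one_le_iff_ne_zero]
    intro h2
    rw [h2, Nat.cast_zero] at h1
    exact zero_ne_one h1
  have h1 : S.card ≤ ∑ x ∈ S, nres M T B x := by
    rw [Finset.card_eq_sum_ones]
    exact Finset.sum_le_sum hS
  have h2 := nres_total M T B (insert (res M a) S)
  rw [Finset.sum_insert h] at h2
  have h3 := mult_le_nres M T B a
  have h4 : 0 < mult T a := by
    rw [Nat.pos_iff_ne_zero]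
    intro h5
    have h6 := ha
    rw [mem_eigs] at h6
    apply h6
    rw [← Submodule.finrank_eq_zero (R := L)]
    exact h5
  omega

end abstract_part

/-- Frobenius on `V = H²(X̄, L)` for an abelian cover `X` of `U = Spec A`, and the parts of `V`
belonging to the characters `χ` of order dividing `r ^ e` of the group of the cover. -/
structure CoverH2 (k A B L V ι : Type) [Field k] [CommRing A] [Algebra k A] [CommRing B]
    [Algebra k B] [Field L] [AddCommGroup V] [Module L V] (r e : ℕ) where
  /-- the geometric Frobenius -/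
  Fr : End L V
  injective : Function.Injective Fr
  integral : ∀ a : L, Fr.HasEigenvalue a → IsIntegral ℤ a
  /-- a subspace on which `Fr` is known to be semisimple, such as the span of the algebraic
  classes -/
  N : Submodule L V
  N_stable : ∀ x ∈ N, Fr x ∈ N
  N_semisimple : End.IsSemisimple (Fr.restrict N_stable)
  /-- the parts of weight two for the characters `χ` -/
  W : ι → Submodule L V
  span : N ⊔ ⨆ i, W i = ⊤
  /-- the character `χ` is defined over the extension of `k` of degree `ord k r * r ^ s` -/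
  s : ι → ℕ
  stable : ∀ i, ∀ x ∈ W i, (Fr ^ (ord k r * r ^ s i)) x ∈ W i
  /-- the eigenvalues on the parts of weights less than two -/
  low : ι → Multiset L
  low_integral : ∀ i, ∀ b ∈ low i, IsIntegral ℤ b
  /-- the trace formula; `t x` and `h y` are the values of `χ` at the Frobenius of the points -/
  trace_formula : ∀ (i : ι) (j : ℕ), 0 < j → ∀ (K : Type) [Field K] [Fintype K] [Algebra k K],
    finrank k K = j * (ord k r * r ^ s i) →
      ∃ (t : (A →ₐ[k] K) → L) (h : (B →ₐ[k] K) → L),
        (∀ x, t x ^ r ^ e = 1) ∧ (∀ y, h y ^ r ^ e = 1) ∧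
        LinearMap.trace L (W i) (((Fr ^ (ord k r * r ^ s i)).restrict (stable i)) ^ j) +
          ((low i).map (fun b => b ^ j)).sum = ∑ᶠ x, t x - Fintype.card K * ∑ᶠ y, h y

variable {k A B L V ι : Type} [Field k] [Finite k] [CommRing A] [Algebra k A]
    [Algebra.FiniteType k A] [CommRing B] [Algebra k B] [Algebra.FiniteType k B] [Field L]
    [CharZero L] [IsAlgClosed L] [AddCommGroup V] [Module L V] [FiniteDimensional L V]

/-- The congruence modulo `r` for one part. -/
theorem residual {r e : ℕ} [Fact r.Prime] (hr : (r : k) ≠ 0)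
    (R : Finset (AlgebraicClosure (ZMod r))) (hR0 : (0 : AlgebraicClosure (ZMod r)) ∉ R)
    (points : ∀ (j : ℕ), 0 < j → ∀ (K : Type) [Field K] [Fintype K] [Algebra k K],
      finrank k K = j * ord k r →
        (Nat.card (A →ₐ[k] K) : AlgebraicClosure (ZMod r)) - Nat.card (B →ₐ[k] K) =
          ∑ z ∈ R, z ^ j)
    (H : CoverH2 k A B L V ι r e) (i : ι)
    (dim : finrank L (H.W i) + Multiset.card (H.low i) ≤ R.card)
    {κ : Type} [Field κ] [IsAlgClosed κ] [CharP κ r] (ψ : integralClosure ℤ L →+* κ)
    (φ : AlgebraicClosure (ZMod r) →+* κ) :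
    ∀ a ∈ eigs ((H.Fr ^ (ord k r * r ^ H.s i)).restrict (H.stable i) : End L (H.W i)),
      mult ((H.Fr ^ (ord k r * r ^ H.s i)).restrict (H.stable i) : End L (H.W i)) a ≤ 1 ∧
        ∃ z ∈ R, res ψ a = φ z ^ r ^ H.s i := by
  classical
  have hrp : r.Prime := Fact.out
  have hm : 0 < ord k r := ord_pos hr
  have hinj : Function.Injective
      fun z : AlgebraicClosure (ZMod r) => φ z ^ r ^ H.s i := by
    have h1 := iterateFrobenius_inj κ r (H.s i)
    intro x y hxy
    exact φ.injective (h1 (by rw [iterateFrobenius_def, iterateFrobenius_def]; exact hxy))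
  let S : Finset κ := R.image fun z => φ z ^ r ^ H.s i
  have hS0 : (0 : κ) ∉ S := by
    intro h
    obtain ⟨z, hz, hz0⟩ := Finset.mem_image.1 h
    have h1 : φ z = 0 := pow_eq_zero_iff (pow_pos hrp.pos _).ne' |>.1 hz0
    have h2 : z = 0 := (map_eq_zero φ).1 h1
    exact hR0 (h2 ▸ hz)
  have hScard : S.card = R.card := Finset.card_image_of_injective _ hinj
  -- the residual power sums
  set T : End L (H.W i) := (H.Fr ^ (ord k r * r ^ H.s i)).restrict (H.stable i) with hT
  have hps : ∀ j : ℕ, 0 < j → ∑ a ∈ eigs T, (mult T a : κ) * res ψ a ^ j +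
      ((H.low i).map (fun b => res ψ b ^ j)).sum = ∑ z ∈ S, z ^ j := by
    intro j hj
    have hM : 0 < ord k r * r ^ H.s i := Nat.mul_pos hm (pow_pos hrp.pos _)
    have hN : 0 < j * (ord k r * r ^ H.s i) := Nat.mul_pos hj hM
    obtain ⟨K, _, _, hK⟩ := exists_field k hN
    have hfin1 : Module.Finite k K := Module.finite_of_finrank_pos (by rw [hK]; exact hN)
    have hfin2 : Finite K := Module.finite_of_finite k
    have hfin3 : Fintype K := Fintype.ofFinite K
    have hfin4 : Finite (A →ₐ[k] K) := finite_points finrank_pos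
    have hfin5 : Fintype (A →ₐ[k] K) := Fintype.ofFinite _
    have hfin6 : Finite (B →ₐ[k] K) := finite_points finrank_pos
    have hfin7 : Fintype (B →ₐ[k] K) := Fintype.ofFinite _
    have hordK : ord k r ∣ finrank k K := by rw [hK]; exact ⟨j * r ^ H.s i, by ring⟩
    have hQ : (Fintype.card K : κ) = 1 := card_eq_one hordK
    obtain ⟨t, h, ht, hh, htr⟩ := H.trace_formula i j hj K hK
    rw [finsum_eq_sum_of_fintype, finsum_eq_sum_of_fintype] at htr
    have hit : ∀ P ∈ Finset.univ, IsIntegral ℤ (t P) := fun P _ => int_root (ht P)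
    have hih : ∀ Q ∈ Finset.univ, IsIntegral ℤ (h Q) := fun Q _ => int_root (hh Q)
    have hI1 : IsIntegral ℤ (∑ P, t P) := IsIntegral.sum _ hit
    have hI2 : IsIntegral ℤ (∑ Q, h Q) := IsIntegral.sum _ hih
    rw [res_trace ψ (eigs_integral H.integral (H.stable i)) (H.low_integral i) j
      (hI1.sub ((int_nat _).mul hI2)) htr, res_sub ψ hI1 ((int_nat _).mul hI2),
      res_mul ψ (int_nat _) hI2, res_natCast, hQ, one_mul, res_sum ψ _ _ hit, res_sum ψ _ _ hih,
      Finset.sum_congr rfl fun P _ => res_root ψ (ht P),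
      Finset.sum_congr rfl fun Q _ => res_root ψ (hh Q), Finset.sum_const, Finset.sum_const,
      nsmul_eq_mul, nsmul_eq_mul, mul_one, mul_one, Finset.card_univ, Finset.card_univ,
      Finset.sum_image fun x _ y _ hxy => hinj hxy]
    have h1 := congrArg φ (points (j * r ^ H.s i) (Nat.mul_pos hj (pow_pos hrp.pos _)) K
      (by rw [hK]; ring))
    rw [map_sub, map_natCast, map_natCast, map_sum,
      Nat.card_eq_fintype_card, Nat.card_eq_fintype_card] at h1
    rw [h1]
    refine Finset.sum_congr rfl fun z _ => ?_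
    rw [map_pow, ← pow_mul, mul_comm j]
  intro a ha
  refine ⟨mult_le_one ψ (H.low i) S hS0 (by rw [hScard]; exact dim) hps a, ?_⟩
  have h1 := res_mem ψ (H.low i) S hS0 (by rw [hScard]; exact dim) hps ha
  obtain ⟨z, hz, hz1⟩ := Finset.mem_image.1 h1
  exact ⟨z, hz, hz1.symm⟩

/-- If the eigenvalues of `U` are different modulo `r`, Frobenius is semisimple. -/
theorem semisimple {r e : ℕ} [Fact r.Prime] (hr : (r : k) ≠ 0)
    (R : Finset (AlgebraicClosure (ZMod r))) (hR0 : (0 : AlgebraicClosure (ZMod r)) ∉ R)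
    (points : ∀ (j : ℕ), 0 < j → ∀ (K : Type) [Field K] [Fintype K] [Algebra k K],
      finrank k K = j * ord k r →
        (Nat.card (A →ₐ[k] K) : AlgebraicClosure (ZMod r)) - Nat.card (B →ₐ[k] K) =
          ∑ z ∈ R, z ^ j)
    (H : CoverH2 k A B L V ι r e)
    (dim : ∀ i, finrank L (H.W i) + Multiset.card (H.low i) ≤ R.card) : H.Fr.IsSemisimple := by
  classical
  have hrp : r.Prime := Fact.out
  have hm : 0 < ord k r := ord_pos hr
  -- a residue field of characteristic `r`
  obtain ⟨κ, _, _, _, ψ, -⟩ := exists_res_closed (L := L) (r := r)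
    (x := (1 : integralClosure ℤ L)) (by
      intro N h
      apply not_integral_inv (L := L) hrp
      simpa using h)
  let : Algebra (ZMod r) κ := ZMod.algebra κ r
  let φ : AlgebraicClosure (ZMod r) →ₐ[ZMod r] κ := IsAlgClosed.lift
  refine semisimple_of_parts H.injective H.N_stable H.N_semisimple H.span
    (n := fun i => ord k r * r ^ H.s i) (fun i => Nat.mul_pos hm (pow_pos hrp.pos _))
    H.stable ?_
  intro i a
  by_cases ha : a ∈ eigs ((H.Fr ^ (ord k r * r ^ H.s i)).restrict (H.stable i) :
      End L (H.W i))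
  · exact (residual hr R hR0 points H i (dim i) ψ φ.toRingHom a ha).1
  · rw [mult_zero_of_notMem ha]
    exact Nat.zero_le _

end Pool.Agent.Helper33.KT
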