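import Pool.Agent.Helper33.KT.Base

/-!
# The order of a root of unity among the eigenvalues (helper33)
-/

open Module Polynomial

namespace Pool.Agent.Helper33.KT

open Pool.Agent.Helper73.KT Pool.Agent.Helper40.PC

section

variable {L : Type*} [Field L] [CharZero L] [IsAlgClosed L]

/-- Automorphisms of the algebraic numbers with prescribed action on a root of unity. -/
theorem exists_aut {N : ℕ} (hN : 0 < N) {w : L} (hw : IsPrimitiveRoot w N) {k : ℕ}
    (hk : k.Coprime N) :
    ∃ M : integralClosure ℤ L →+* L, ∀ (x : L) (j : ℕ), x = w ^ j → res M x = w ^ (k * j) := by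
  have hwZ : IsIntegral ℤ w := hw.isIntegral hN
  have hwi : IsIntegral ℚ w := hwZ.tower_top
  let w' : algebraicClosure ℚ L := ⟨w, mem_algebraicClosure_iff.2 hwi.isAlgebraic⟩
  have hw' : IsPrimitiveRoot w' N := by
    refine IsPrimitiveRoot.of_map_of_injective (f := algebraMap (algebraicClosure ℚ L) L) ?_
      (algebraMap (algebraicClosure ℚ L) L).injective
    exact hw
  have hcl : IsAlgClosure ℚ (algebraicClosure ℚ L) := algebraicClosure.isAlgClosure ℚ L
  have hnorm : Normal ℚ (algebraicClosure ℚ L) := IsAlgClosure.normal ℚ _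
  have hconj : aeval (w' ^ k) (minpoly ℚ w') = 0 := by
    have h1 : minpoly ℚ w' = cyclotomic N ℚ :=
      (cyclotomic_eq_minpoly_rat hw' hN).symm
    rw [h1, aeval_def, ← eval_map, map_cyclotomic]
    have : NeZero (N : algebraicClosure ℚ L) := ⟨Nat.cast_ne_zero.2 hN.ne'⟩
    exact isRoot_cyclotomic_iff.2 (hw'.pow_of_coprime k hk)
  obtain ⟨σ, hσ⟩ := minpoly.exists_algEquiv_of_root'
    (Algebra.IsAlgebraic.isAlgebraic w') hconj
  have hmem : ∀ x : integralClosure ℤ L, (x : L) ∈ algebraicClosure ℚ L := by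
    intro x
    have h1 : IsIntegral ℤ (x : L) := x.2
    have h2 : IsIntegral ℚ (x : L) := h1.tower_top
    exact mem_algebraicClosure_iff.2 h2.isAlgebraic
  let inc : integralClosure ℤ L →+* algebraicClosure ℚ L :=
    { toFun := fun x => ⟨x, hmem x⟩
      map_one' := rfl
      map_mul' := fun _ _ => rfl
      map_zero' := rfl
      map_add' := fun _ _ => rfl }
  refine ⟨((algebraMap (algebraicClosure ℚ L) L).comp (σ : algebraicClosure ℚ L →+* _)).comp inc,
    ?_⟩
  intro x j hj
  have hx : IsIntegral ℤ x := by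
    rw [hj]
    exact hwZ.pow j
  rw [res_eq _ hx]
  have h1 : inc ⟨x, hx⟩ = w' ^ j := by
    apply Subtype.ext
    rw [SubmonoidClass.coe_pow]
    exact hj
  rw [RingHom.comp_apply, h1, map_pow, RingHom.comp_apply]
  have h2 : (σ : algebraicClosure ℚ L →+* algebraicClosure ℚ L) w' = w' ^ k := hσ
  rw [h2, map_pow, ← pow_mul]
  rfl

omit [CharZero L] [IsAlgClosed L] in
/-- A homomorphism which fixes the roots of unity of order `r ^ e` fixes what they generate. -/
theorem fix_adjoin {r e : ℕ} [Fact r.Prime] (M : integralClosure ℤ L →+* L)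
    (hM : ∀ z : L, z ^ r ^ e = 1 → res M z = z) {x : L}
    (hx : x ∈ Algebra.adjoin ℤ {z : L | z ^ r ^ e = 1}) : IsIntegral ℤ x ∧ res M x = x := by
  induction hx using Algebra.adjoin_induction with
  | mem z hz => exact ⟨int_root hz, hM z hz⟩
  | algebraMap n =>
    have hn : IsIntegral ℤ (algebraMap ℤ L n) := isIntegral_algebraMap
    refine ⟨hn, ?_⟩
    rw [res_eq M hn]
    have h1 : (⟨algebraMap ℤ L n, hn⟩ : integralClosure ℤ L) = ((n : ℤ) : integralClosure ℤ L) := by
      apply Subtype.ext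
      simp
    rw [h1, map_intCast]
    simp
  | add x y _ _ h1 h2 => exact ⟨h1.1.add h2.1, by rw [res_add M h1.1 h2.1, h1.2, h2.2]⟩
  | mul x y _ _ h1 h2 => exact ⟨h1.1.mul h2.1, by rw [res_mul M h1.1 h2.1, h1.2, h2.2]⟩

end

section

variable {L W : Type*} [Field L] [CharZero L] [IsAlgClosed L] [AddCommGroup W] [Module L W]
  [FiniteDimensional L W]

omit [CharZero L] [IsAlgClosed L] in
theorem mult_pos {T : End L W} {a : L} (ha : a ∈ eigs T) : 0 < mult T a := by
  rw [Nat.pos_iff_ne_zero]
  intro h5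
  rw [mem_eigs] at ha
  apply ha
  rw [← Submodule.finrank_eq_zero (R := L)]
  exact h5

theorem card_eigs_le (T : End L W) : (eigs T).card ≤ finrank L W := by
  have h1 := trace_pow T 0
  rw [pow_zero, LinearMap.trace_one] at h1
  simp only [pow_zero, mul_one] at h1
  have h2 : finrank L W = ∑ c ∈ eigs T, mult T c := by exact_mod_cast h1
  rw [h2, Finset.card_eq_sum_ones]
  exact Finset.sum_le_sum fun c hc => mult_pos hc

/-- A homomorphism which fixes the power sums permutes the eigenvalues. -/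
theorem conj_mem {T : End L W} (hint : ∀ c ∈ eigs T, IsIntegral ℤ c) (B : Multiset L)
    (hB : ∀ b ∈ B, IsIntegral ℤ b) (M : integralClosure ℤ L →+* L)
    (hfix : ∀ j, 0 < j → IsIntegral ℤ (LinearMap.trace L W (T ^ j) +
      (B.map (fun b => b ^ j)).sum) ∧ res M (LinearMap.trace L W (T ^ j) +
      (B.map (fun b => b ^ j)).sum) = LinearMap.trace L W (T ^ j) +
      (B.map (fun b => b ^ j)).sum) {c : L} (hc : c ∈ eigs T) (hc0 : res M c ≠ 0) :
    res M c ∈ eigs T ∨ res M c ∈ B := by
  classical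
  let S : Finset L := eigs T ∪ B.toFinset
  let w : L → L := fun z => ((mult T z + B.count z : ℕ) : L)
  have hps : ∀ j : ℕ, 0 < j → ∑ c ∈ eigs T, (mult T c : L) * res M c ^ j +
      (B.map (fun b => res M b ^ j)).sum = ∑ z ∈ S, w z * z ^ j := by
    intro j hj
    obtain ⟨h1, h2⟩ := hfix j hj
    rw [res_trace M hint hB j h1 rfl, h2, trace_pow]
    have h3 : ∑ z ∈ S, w z * z ^ j = ∑ z ∈ S, (mult T z : L) * z ^ j +
        ∑ z ∈ S, (B.count z : L) * z ^ j := by
      rw [← Finset.sum_add_distrib]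
      refine Finset.sum_congr rfl fun z _ => ?_
      simp only [w]
      push_cast
      ring
    rw [h3]
    congr 1
    · refine Finset.sum_subset Finset.subset_union_left fun z _ hz => ?_
      rw [mult_zero_of_notMem hz, Nat.cast_zero, zero_mul]
    · rw [Finset.sum_multiset_map_count]
      refine (Finset.sum_subset (Finset.subset_union_right) fun z _ hz => ?_).trans
        (Finset.sum_congr rfl fun z _ => ?_)
      · rw [Multiset.count_eq_zero_of_notMem (by simpa using hz), zero_smul]
      · rw [nsmul_eq_mul]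
  have h1 := nres_cast M B S w hps (res M c) hc0
  have h2 := mult_le_nres M T B c
  have h3 := mult_pos hc
  have h4 : (nres M T B (res M c) : L) ≠ 0 := Nat.cast_ne_zero.2 (by omega)
  rw [h1] at h4
  have h5 : res M c ∈ S := by
    by_contra h
    rw [if_neg h] at h4
    exact h4 rfl
  rcases Finset.mem_union.1 h5 with h6 | h6
  · exact Or.inl h6
  · exact Or.inr (Multiset.mem_toFinset.1 h6)

/-- If `Q * z` is an eigenvalue and the power sums of the eigenvalues lie in the field of the
roots of unity of order `r ^ e`, the order of `z` is bounded. -/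
theorem phi_le {r e t n : ℕ} [Fact r.Prime] (T : End L W)
    (hint : ∀ c ∈ eigs T, IsIntegral ℤ c) (B : Multiset L) (hB : ∀ b ∈ B, IsIntegral ℤ b)
    (htr : ∀ j, 0 < j → LinearMap.trace L W (T ^ j) + (B.map (fun b => b ^ j)).sum ∈
      Algebra.adjoin ℤ {z : L | z ^ r ^ e = 1}) {c z : L} {Q : ℕ} (hQ : Q ≠ 0)
    (hc : c ∈ eigs T) (h : c = Q * z) (hn : n.Coprime r) (hz : orderOf z = n * r ^ t) :
    n.totient ≤ finrank L W + Multiset.card B := by
  classical
  have hrp : r.Prime := Fact.out
  have hn0 : 0 < n := by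
    rcases Nat.eq_zero_or_pos n with h1 | h1
    · subst h1
      rw [Nat.coprime_zero_left] at hn
      exact absurd hn hrp.ne_one
    · exact h1
  set E := max e t with hE
  have hrE : 0 < r ^ E := pow_pos hrp.pos _
  have hcop : n.Coprime (r ^ E) := Nat.Coprime.pow_right _ hn
  have hN : 0 < n * r ^ E := Nat.mul_pos hn0 hrE
  have : NeZero ((n * r ^ E : ℕ) : L) := ⟨Nat.cast_ne_zero.2 hN.ne'⟩
  obtain ⟨w, hw⟩ := HasEnoughRootsOfUnity.exists_primitiveRoot L (n * r ^ E)
  have : NeZero n := ⟨hn0.ne'⟩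
  -- `z` is a power of `w`
  have hzN : z ^ (n * r ^ E) = 1 := by
    rw [← orderOf_dvd_iff_pow_eq_one, hz]
    exact mul_dvd_mul_left n (pow_dvd_pow r (le_max_right e t))
  obtain ⟨i, -, hi⟩ := hw.eq_pow_of_pow_eq_one hzN
  -- the exponents
  let k : (ZMod n)ˣ → ℕ := fun u => (Nat.chineseRemainder hcop ((u : ZMod n).val) 1 : ℕ)
  have hk1 : ∀ u, k u ≡ (u : ZMod n).val [MOD n] := fun u =>
    (Nat.chineseRemainder hcop ((u : ZMod n).val) 1).2.1
  have hk2 : ∀ u, k u ≡ 1 [MOD r ^ E] := fun u =>
    (Nat.chineseRemainder hcop ((u : ZMod n).val) 1).2.2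
  have hkN : ∀ u, (k u).Coprime (n * r ^ E) := by
    intro u
    refine Nat.Coprime.mul_right ?_ ?_
    · have h1 := ZMod.val_coe_unit_coprime u
      have h2 := (hk1 u).gcd_eq
      rw [Nat.Coprime, h2]
      exact h1
    · have h2 := (hk2 u).gcd_eq
      rw [Nat.Coprime, h2, Nat.gcd_one_left]
  choose M hM using fun u => exists_aut hN hw (hkN u)
  -- the roots of unity of order `r ^ e` are fixed
  have hfix : ∀ u (y : L), y ^ r ^ e = 1 → res (M u) y = y := by
    intro u y hy
    have hyN : y ^ (n * r ^ E) = 1 := by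
      have h1 : r ^ e ∣ n * r ^ E := (pow_dvd_pow r (le_max_left e t)).mul_left n
      obtain ⟨d, hd⟩ := h1
      rw [hd, pow_mul, hy, one_pow]
    obtain ⟨j, -, hj⟩ := hw.eq_pow_of_pow_eq_one hyN
    rw [hM u y j hj.symm, ← hj]
    have h1 : y ^ r ^ E = 1 := by
      obtain ⟨d, hd⟩ := pow_dvd_pow r (le_max_left e t)
      rw [hE, hd, pow_mul, hy, one_pow]
    have h2 : y ^ k u = y := by
      have h3 := (hk2 u)
      have h4 : k u ≡ 1 [MOD orderOf y] := h3.of_dvd (orderOf_dvd_of_pow_eq_one h1)
      have h5 : k u % orderOf y = 1 % orderOf y := h4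
      rw [← pow_mod_orderOf, h5, pow_mod_orderOf, pow_one]
    rw [mul_comm, pow_mul, hj]
    exact h2
  -- the conjugates
  have hzi : IsIntegral ℤ z := (hw.isIntegral hN).pow i |> fun h => hi ▸ h
  have hconj : ∀ u, res (M u) c = Q * z ^ k u := by
    intro u
    rw [h, res_mul (M u) (int_nat Q) hzi, res_natCast, hM u z i hi.symm, ← hi, ← pow_mul,
      mul_comm i]
  have hz0 : z ≠ 0 := by
    intro h1
    rw [h1, zero_pow (Nat.mul_pos hn0 hrE).ne'] at hzN
    exact zero_ne_one hzN
  have hQ0 : (Q : L) ≠ 0 := Nat.cast_ne_zero.2 hQ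
  have hmem : ∀ u, res (M u) c ∈ eigs T ∪ B.toFinset := by
    intro u
    have h1 := conj_mem hint B hB (M u) (fun j hj => fix_adjoin (M u) (hfix u) (htr j hj)) hc
      (by rw [hconj]; exact mul_ne_zero hQ0 (pow_ne_zero _ hz0))
    rcases h1 with h2 | h2
    · exact Finset.mem_union_left _ h2
    · exact Finset.mem_union_right _ (Multiset.mem_toFinset.2 h2)
  have hinj : Function.Injective fun u => res (M u) c := by
    intro u v huv
    simp only [hconj] at huv
    have h1 : z ^ k u = z ^ k v := mul_left_cancel₀ hQ0 huv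
    have h1' : (Units.mk0 z hz0) ^ k u = (Units.mk0 z hz0) ^ k v := Units.ext (by
      rw [Units.val_pow_eq_pow_val, Units.val_pow_eq_pow_val]
      exact h1)
    rw [pow_eq_pow_iff_modEq, ← orderOf_units, Units.val_mk0, hz] at h1'
    have h2 : k u ≡ k v [MOD n] := h1'.of_dvd (dvd_mul_right n _)
    have h3 : (u : ZMod n).val ≡ (v : ZMod n).val [MOD n] :=
      ((hk1 u).symm.trans h2).trans (hk1 v)
    have h4 : (u : ZMod n) = (v : ZMod n) := by
      have h5 := (ZMod.natCast_eq_natCast_iff _ _ _).2 h3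
      rwa [ZMod.natCast_zmod_val, ZMod.natCast_zmod_val] at h5
    exact Units.ext h4
  calc n.totient = Fintype.card (ZMod n)ˣ := (ZMod.card_units_eq_totient n).symm
    _ = (Finset.univ.image fun u => res (M u) c).card := by
        rw [Finset.card_image_of_injective _ hinj, Finset.card_univ]
    _ ≤ (eigs T ∪ B.toFinset).card := Finset.card_le_card fun y hy => by
        obtain ⟨u, -, rfl⟩ := Finset.mem_image.1 hy
        exact hmem u
    _ ≤ (eigs T).card + B.toFinset.card := Finset.card_union_le _ _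
    _ ≤ finrank L W + Multiset.card B :=
        Nat.add_le_add (card_eigs_le T) (Multiset.toFinset_card_le B)

end

end Pool.Agent.Helper33.KT
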