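import Pool.Agent.Helper33.KT.Bound

/-!
# The order of a root of unity with few conjugates (helper33)
-/

open Module Polynomial

namespace Pool.Agent.Helper33.KT

open Pool.Agent.Helper73.KT Pool.Agent.Helper40.PC

variable {L : Type*} [Field L] [CharZero L] [IsAlgClosed L]

/-- If the conjugates of `Q * z` over the field of the roots of unity of order `r ^ e` are in the
finite set `X`, the order of `z` is bounded. -/
theorem phi_le_set {r e t n : ℕ} [Fact r.Prime] (X : Finset L) {c z : L} {Q : ℕ} (hQ : Q ≠ 0)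
    (h : c = Q * z) (hX : ∀ M : integralClosure ℤ L →+* L,
      (∀ y : L, y ^ r ^ e = 1 → res M y = y) → res M c ∈ X)
    (hn : n.Coprime r) (hz : orderOf z = n * r ^ t) : n.totient ≤ X.card := by
  classical
  have hrp : r.Prime := Fact.out
  have hn0 : 0 < n := by
    rcases Nat.eq_zero_or_pos n with h1 | h1
    · subst h1
      rw [Nat.coprime_zero_left] at hn
      exact absurd hn hrp.ne_one
    · exact h1
  set E := max e t with hE
  have hrE : 0 < r ^ E := pow_pos hrp.pos _
  have hcop : n.Coprime (r ^ E) := Nat.Coprime.pow_right _ hn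
  have hN : 0 < n * r ^ E := Nat.mul_pos hn0 hrE
  have : NeZero ((n * r ^ E : ℕ) : L) := ⟨Nat.cast_ne_zero.2 hN.ne'⟩
  obtain ⟨w, hw⟩ := HasEnoughRootsOfUnity.exists_primitiveRoot L (n * r ^ E)
  have : NeZero n := ⟨hn0.ne'⟩
  -- `z` is a power of `w`
  have hzN : z ^ (n * r ^ E) = 1 := by
    rw [← orderOf_dvd_iff_pow_eq_one, hz]
    exact mul_dvd_mul_left n (pow_dvd_pow r (le_max_right e t))
  obtain ⟨i, -, hi⟩ := hw.eq_pow_of_pow_eq_one hzN
  -- the exponents
  let k : (ZMod n)ˣ → ℕ := fun u => (Nat.chineseRemainder hcop ((u : ZMod n).val) 1 : ℕ)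
  have hk1 : ∀ u, k u ≡ (u : ZMod n).val [MOD n] := fun u =>
    (Nat.chineseRemainder hcop ((u : ZMod n).val) 1).2.1
  have hk2 : ∀ u, k u ≡ 1 [MOD r ^ E] := fun u =>
    (Nat.chineseRemainder hcop ((u : ZMod n).val) 1).2.2
  have hkN : ∀ u, (k u).Coprime (n * r ^ E) := by
    intro u
    refine Nat.Coprime.mul_right ?_ ?_
    · have h1 := ZMod.val_coe_unit_coprime u
      have h2 := (hk1 u).gcd_eq
      rw [Nat.Coprime, h2]
      exact h1
    · have h2 := (hk2 u).gcd_eq
      rw [Nat.Coprime, h2, Nat.gcd_one_left]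
  choose M hM using fun u => exists_aut hN hw (hkN u)
  -- the roots of unity of order `r ^ e` are fixed
  have hfix : ∀ u (y : L), y ^ r ^ e = 1 → res (M u) y = y := by
    intro u y hy
    have hyN : y ^ (n * r ^ E) = 1 := by
      have h1 : r ^ e ∣ n * r ^ E := (pow_dvd_pow r (le_max_left e t)).mul_left n
      obtain ⟨d, hd⟩ := h1
      rw [hd, pow_mul, hy, one_pow]
    obtain ⟨j, -, hj⟩ := hw.eq_pow_of_pow_eq_one hyN
    rw [hM u y j hj.symm, ← hj]
    have h1 : y ^ r ^ E = 1 := by
      obtain ⟨d, hd⟩ := pow_dvd_pow r (le_max_left e t)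
      rw [hE, hd, pow_mul, hy, one_pow]
    have h2 : y ^ k u = y := by
      have h3 := (hk2 u)
      have h4 : k u ≡ 1 [MOD orderOf y] := h3.of_dvd (orderOf_dvd_of_pow_eq_one h1)
      have h5 : k u % orderOf y = 1 % orderOf y := h4
      rw [← pow_mod_orderOf, h5, pow_mod_orderOf, pow_one]
    rw [mul_comm, pow_mul, hj]
    exact h2
  -- the conjugates
  have hzi : IsIntegral ℤ z := (hw.isIntegral hN).pow i |> fun h => hi ▸ h
  have hconj : ∀ u, res (M u) c = Q * z ^ k u := by
    intro u
    rw [h, res_mul (M u) (int_nat Q) hzi, res_natCast, hM u z i hi.symm, ← hi, ← pow_mul,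
      mul_comm i]
  have hz0 : z ≠ 0 := by
    intro h1
    rw [h1, zero_pow (Nat.mul_pos hn0 hrE).ne'] at hzN
    exact zero_ne_one hzN
  have hQ0 : (Q : L) ≠ 0 := Nat.cast_ne_zero.2 hQ
  have hinj : Function.Injective fun u => res (M u) c := by
    intro u v huv
    simp only [hconj] at huv
    have h1 : z ^ k u = z ^ k v := mul_left_cancel₀ hQ0 huv
    have h1' : (Units.mk0 z hz0) ^ k u = (Units.mk0 z hz0) ^ k v := Units.ext (by
      rw [Units.val_pow_eq_pow_val, Units.val_pow_eq_pow_val]
      exact h1)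
    rw [pow_eq_pow_iff_modEq, ← orderOf_units, Units.val_mk0, hz] at h1'
    have h2 : k u ≡ k v [MOD n] := h1'.of_dvd (dvd_mul_right n _)
    have h3 : (u : ZMod n).val ≡ (v : ZMod n).val [MOD n] :=
      ((hk1 u).symm.trans h2).trans (hk1 v)
    have h4 : (u : ZMod n) = (v : ZMod n) := by
      have h5 := (ZMod.natCast_eq_natCast_iff _ _ _).2 h3
      rwa [ZMod.natCast_zmod_val, ZMod.natCast_zmod_val] at h5
    exact Units.ext h4
  calc n.totient = Fintype.card (ZMod n)ˣ := (ZMod.card_units_eq_totient n).symm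
    _ = (Finset.univ.image fun u => res (M u) c).card := by
        rw [Finset.card_image_of_injective _ hinj, Finset.card_univ]
    _ ≤ X.card := Finset.card_le_card fun y hy => by
        obtain ⟨u, -, rfl⟩ := Finset.mem_image.1 hy
        exact hX (M u) (hfix u)

end Pool.Agent.Helper33.KT
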