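import Pool.Agent.Helper33.KT.Ins

/-!
Tensors killed by the Lie operators are combinations of products of pairings, if there are less factors than the dimension.
-/

set_option autoImplicit false

open Matrix H77MT Pool.Agent.Helper79.KN Pool.Agent.Helper33.KN Pool.Agent.Helper73.KT

namespace Pool.Agent.Helper33.KT

section rel
variable {X n K ι : Type} [DecidableEq X] [Fintype n] [DecidableEq n] [Field K] [Fintype ι] [DecidableEq ι]

theorem rel {i : ι → X × Bool} {v : (ι → n) → K} (hv : ∀ x c d, c ≠ d → lie i x c d v = 0) (s : ι → n) (a : ι) (j : n)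
    (hj : ∀ b, s b ≠ j) :
    v s = ∑ b, if i b = ((i a).1, !(i a).2) ∧ s a = s b then v (Function.update (Function.update s a j) b j) else 0 := by
  set s' : ι → n := Function.update s a j with hs'
  have h0 : Function.update s' a (s a) = s := by
    rw [hs', Function.update_idem, Function.update_eq_self]
  have hsa : s' a = j := by rw [hs', Function.update_self]
  have hne : ∀ b, b ≠ a → s' b = s b := fun b hb => by rw [hs', Function.update_of_ne hb]
  have hPa : ¬ (i a = ((i a).1, !(i a).2) ∧ s a = s a) := by
    rintro ⟨h, -⟩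
    have := congrArg Prod.snd h
    simp at this
  have hPne : ∀ b, i b = ((i a).1, !(i a).2) → b ≠ a := by
    rintro b h rfl
    exact hPa ⟨h, rfl⟩
  cases hb2 : (i a).2
  · have h := congrFun (hv (i a).1 (s a) j (hj a)) s'
    have h' : ∑ b, ((if i b = ((i a).1, !(i a).2) ∧ s a = s b then v (Function.update s' b j) else 0) -
        if b = a then v s else 0) = 0 := by
      refine Eq.trans (Finset.sum_congr rfl fun b _ => ?_) h
      by_cases hP : i b = ((i a).1, !(i a).2)
      · have e1 : (i b).1 = (i a).1 := by rw [hP]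
        have e2 : (i b).2 = true := by rw [hP, hb2]; rfl
        rw [if_neg (hPne b hP), sub_zero, if_pos e1, if_pos e2, hne b (hPne b hP)]
        by_cases hs : s a = s b
        · rw [if_pos (⟨hP, hs⟩ : i b = ((i a).1, !(i a).2) ∧ s a = s b), if_pos hs.symm]
        · rw [if_neg (show ¬ (i b = ((i a).1, !(i a).2) ∧ s a = s b) from fun h => hs h.2),
            if_neg (show ¬ s b = s a from fun h => hs h.symm)]
      · rw [if_neg (show ¬ (i b = ((i a).1, !(i a).2) ∧ s a = s b) from fun h => hP h.1), zero_sub]
        by_cases hba : b = a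
        · subst hba
          have e2 : ¬ (i b).2 = true := by rw [hb2]; exact Bool.false_ne_true
          rw [if_pos rfl, if_pos rfl, if_neg e2, if_pos hsa, h0]
        · rw [if_neg hba, neg_zero]
          by_cases hx : (i b).1 = (i a).1
          · have e2 : ¬ (i b).2 = true := fun h2 => hP (Prod.ext hx (by rw [h2, hb2]; rfl))
            rw [if_pos hx, if_neg e2, hne b hba, if_neg (hj b)]
          · rw [if_neg hx]
    rw [Finset.sum_sub_distrib, Finset.sum_ite_eq' Finset.univ a, if_pos (Finset.mem_univ a), sub_eq_zero] at h'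
    rw [← h', hb2]
  · have h := congrFun (hv (i a).1 j (s a) (hj a).symm) s'
    have h' : ∑ b, ((if b = a then v s else 0) -
        if i b = ((i a).1, !(i a).2) ∧ s a = s b then v (Function.update s' b j) else 0) = 0 := by
      refine Eq.trans (Finset.sum_congr rfl fun b _ => ?_) h
      by_cases hP : i b = ((i a).1, !(i a).2)
      · have e1 : (i b).1 = (i a).1 := by rw [hP]
        have e2 : ¬ (i b).2 = true := by rw [hP, hb2]; exact Bool.false_ne_true
        rw [if_neg (hPne b hP), zero_sub, if_pos e1, if_neg e2, hne b (hPne b hP)]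
        by_cases hs : s a = s b
        · rw [if_pos (⟨hP, hs⟩ : i b = ((i a).1, !(i a).2) ∧ s a = s b), if_pos hs.symm]
        · rw [if_neg (show ¬ (i b = ((i a).1, !(i a).2) ∧ s a = s b) from fun h => hs h.2),
            if_neg (show ¬ s b = s a from fun h => hs h.symm), neg_zero]
      · rw [if_neg (show ¬ (i b = ((i a).1, !(i a).2) ∧ s a = s b) from fun h => hP h.1), sub_zero]
        by_cases hba : b = a
        · subst hba
          rw [if_pos rfl, if_pos rfl, if_pos hb2, if_pos hsa, h0]
        · rw [if_neg hba]
          by_cases hx : (i b).1 = (i a).1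
          · have e2 : (i b).2 = true := by
              by_contra h2
              rw [Bool.not_eq_true] at h2
              exact hP (Prod.ext hx (by rw [h2, hb2]; rfl))
            rw [if_pos hx, if_pos e2, hne b hba, if_neg (hj b)]
          · rw [if_neg hx]
    rw [Finset.sum_sub_distrib, Finset.sum_ite_eq' Finset.univ a, if_pos (Finset.mem_univ a), sub_eq_zero] at h'
    rw [h', hb2]

theorem exists_fresh {κ : Type} [Fintype κ] (s : κ → n) (S : Finset n) (h : Fintype.card κ + S.card < Fintype.card n) :
    ∃ j, (∀ c, s c ≠ j) ∧ j ∉ S := by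
  classical
  by_contra hcon
  push Not at hcon
  have h1 : (Finset.univ : Finset n) ⊆ Finset.univ.image s ∪ S := by
    intro j _
    rw [Finset.mem_union, Finset.mem_image]
    by_cases hj : ∀ c, s c ≠ j
    · exact Or.inr (hcon j hj)
    · push Not at hj
      obtain ⟨c, hc⟩ := hj
      exact Or.inl ⟨c, Finset.mem_univ _, hc⟩
  have h2 := Finset.card_le_card h1
  have h3 := Finset.card_union_le (Finset.univ.image s) S
  have h4 := Finset.card_image_le (s := (Finset.univ : Finset κ)) (f := s)
  rw [Finset.card_univ] at h2 h4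
  omega

/-- The extension by the index `j`. -/
def ext (a b : ι) (s : Rest a b → n) (j : n) : ι → n := fun c => if h : c ≠ a ∧ c ≠ b then s ⟨c, h⟩ else j

theorem ext_rest (a b : ι) (s : Rest a b → n) (j : n) (c : Rest a b) : ext a b s j c.1 = s c := by
  rw [ext, dif_pos c.2]

theorem ext_left (a b : ι) (s : Rest a b → n) (j : n) : ext a b s j a = j := by
  rw [ext, dif_neg fun h => h.1 rfl]

theorem ext_right (a b : ι) (s : Rest a b → n) (j : n) : ext a b s j b = j := by
  rw [ext, dif_neg fun h => h.2 rfl]

theorem ext_fresh {a b : ι} {s : Rest a b → n} {j j' : n} (h : ∀ c, s c ≠ j') (hne : j ≠ j') (c : ι) :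
    ext a b s j c ≠ j' := by
  rw [ext]
  split_ifs with hc
  · exact h _
  · exact hne

theorem ext_update (a b : ι) (s : Rest a b → n) (j : n) (c : Rest a b) (d : n) :
    ext a b (Function.update s c d) j = Function.update (ext a b s j) c.1 d := by
  funext e
  by_cases he : e ≠ a ∧ e ≠ b
  · by_cases hec : e = c.1
    · subst hec
      rw [ext_rest, Function.update_self, Function.update_self]
    · rw [Function.update_of_ne hec, ext, dif_pos he, ext, dif_pos he, Function.update_of_ne]
      exact fun h => hec (congrArg Subtype.val h)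
  · have hec : e ≠ c.1 := fun h => he (h ▸ c.2)
    rw [Function.update_of_ne hec, ext, dif_neg he, ext, dif_neg he]

theorem update_eq_ext {a b : ι} (s : ι → n) (j : n) :
    Function.update (Function.update s a j) b j = ext a b (fun c => s c.1) j := by
  funext e
  by_cases hb : e = b
  · subst hb
    rw [Function.update_self, ext_right]
  · rw [Function.update_of_ne hb]
    by_cases ha : e = a
    · subst ha
      rw [Function.update_self, ext_left]
    · rw [Function.update_of_ne ha, ext, dif_pos ⟨ha, hb⟩]

theorem ext_indep {i : ι → X × Bool} {v : (ι → n) → K} (hv : ∀ x c d, c ≠ d → lie i x c d v = 0) {a b : ι}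
    (h : i b = ((i a).1, !(i a).2)) (s : Rest a b → n) {j j' : n} (hj : ∀ c, s c ≠ j) (hj' : ∀ c, s c ≠ j') :
    v (ext a b s j) = v (ext a b s j') := by
  by_cases hne : j = j'
  · rw [hne]
  rw [rel hv (ext a b s j) a j' (ext_fresh hj' hne), Finset.sum_eq_single b]
  · rw [if_pos ⟨h, by rw [ext_left, ext_right]⟩, update_eq_ext]
    congr 1
    congr 1
    funext c
    exact ext_rest a b s j c
  · intro b' _ hb'
    rw [if_neg]
    rintro ⟨h1, h2⟩
    have ha : b' ≠ a := by
      rintro rfl
      have := congrArg Prod.snd h1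
      simp at this
    have h3 := ext_rest a b s j ⟨b', ha, hb'⟩
    rw [ext_left] at h2
    exact hj ⟨b', ha, hb'⟩ (h3.symm.trans h2.symm)
  · intro hb
    exact absurd (Finset.mem_univ b) hb

theorem pairs_zero' (i : ι → X × Bool) (M : (ι → n) → K) : M ∈ pairs K n i 0 := by
  refine Submodule.subset_span ⟨Fin.elim0, Fin.elim0, ?_, fun j => j.elim0, M, ?_, ?_⟩
  · rintro (j | j) <;> exact j.elim0
  · intro s t h
    rw [funext fun a => h a fun j => j.elim0]
  · intro s
    rw [if_pos fun j : Fin 0 => j.elim0]

theorem card_rest {a b : ι} (hab : a ≠ b) : Fintype.card (Rest a b) + 2 = Fintype.card ι := by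
  have h : Fintype.card (Rest a b) = (({a, b} : Finset ι)ᶜ).card := by
    rw [Fintype.card_subtype]
    congr 1
    ext c
    simp
  rw [h, Finset.card_compl, Finset.card_pair hab]
  have : 2 ≤ Fintype.card ι := by
    rw [← Finset.card_pair hab]
    exact Finset.card_le_univ _
  omega

theorem killed_rest {i : ι → X × Bool} {v : (ι → n) → K} (hn : Fintype.card ι < Fintype.card n)
    (hv : ∀ x c d, c ≠ d → lie i x c d v = 0) {a b : ι} (hab : a ≠ b)
    (w : (Rest a b → n) → K) (hw : ∀ s j, (∀ c, s c ≠ j) → w s = v (ext a b s j)) (x : X) (c d : n) (hcd : c ≠ d) :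
    lie (fun e : Rest a b => i e.1) x c d w = 0 := by
  funext s
  have hcard := card_rest hab
  obtain ⟨j, hj, hjcd⟩ := exists_fresh s {c, d} (by rw [Finset.card_pair hcd]; omega)
  have hjc : j ≠ c := fun h => hjcd (by simp [h])
  have hjd : j ≠ d := fun h => hjcd (by simp [h])
  have h := congrFun (hv x c d hcd) (ext a b s j)
  rw [Pi.zero_apply] at h ⊢
  rw [← h]
  show (∑ e : Rest a b, _) = ∑ e : ι, _
  have h2 : ∀ F : ι → K, F a = 0 → F b = 0 → ∑ e : Rest a b, F e.1 = ∑ e, F e := by
    intro F ha hb
    rw [← Finset.sum_subtype (Finset.univ.filter fun e => e ≠ a ∧ e ≠ b) (by simp) F, Finset.sum_filter_of_ne]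
    rintro e - he
    exact ⟨fun h => he (h ▸ ha), fun h => he (h ▸ hb)⟩
  rw [← h2]
  · refine Finset.sum_congr rfl fun e _ => ?_
    rw [ext_rest]
    have hup : ∀ f, j ≠ f → w (Function.update s e f) = v (Function.update (ext a b s j) e.1 f) := by
      intro f hf
      rw [← ext_update]
      refine hw _ _ fun g => ?_
      by_cases hg : g = e
      · rw [hg, Function.update_self]
        exact hf.symm
      · rw [Function.update_of_ne hg]
        exact hj g
    rw [hup c hjc, hup d hjd]
  · rw [ext_left, if_neg hjc, if_neg hjd]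
    simp
  · rw [ext_right, if_neg hjc, if_neg hjd]
    simp

end rel

theorem fft {X n K : Type} [DecidableEq X] [Fintype n] [DecidableEq n] [Field K] (k : ℕ) :
    ∀ (ι : Type) [Fintype ι] [DecidableEq ι] (i : ι → X × Bool) (v : (ι → n) → K), Fintype.card ι = k →
      Fintype.card ι < Fintype.card n → (∀ x c d, c ≠ d → lie i x c d v = 0) → ∀ q, 2 * q ≤ Fintype.card ι + 1 →
        v ∈ pairs K n i q := by
  induction k using Nat.strong_induction_on with
  | _ k IH =>
    intro ι _ _ i v hk hn hv q hq
    rcases q with _ | q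
    · exact pairs_zero' i v
    have hpos : 0 < Fintype.card ι := by omega
    obtain ⟨a⟩ : Nonempty ι := Fintype.card_pos_iff.1 hpos
    have hne : ∀ b, i b = ((i a).1, !(i a).2) → a ≠ b := by
      rintro b h rfl
      have := congrArg Prod.snd h
      simp at this
    have hex : ∀ b (s : Rest a b → n), ∃ j, ∀ c, s c ≠ j := by
      intro b s
      have hle : Fintype.card (Rest a b) ≤ Fintype.card ι := Fintype.card_subtype_le _
      obtain ⟨j, hj, -⟩ := exists_fresh s ∅ (by rw [Finset.card_empty]; omega)
      exact ⟨j, hj⟩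
    choose fr hfr using hex
    have hw : ∀ b, i b = ((i a).1, !(i a).2) → ∀ s j, (∀ c, s c ≠ j) → v (ext a b s (fr b s)) = v (ext a b s j) :=
      fun b hb s j hj => ext_indep hv hb s (hfr b s) hj
    have hsum : v = ∑ b, if i b = ((i a).1, !(i a).2) then insL a b fun s => v (ext a b s (fr b s)) else 0 := by
      funext s
      obtain ⟨j, hj, -⟩ := exists_fresh s ∅ (by rw [Finset.card_empty]; omega)
      rw [Finset.sum_apply, rel hv s a j hj]
      refine Finset.sum_congr rfl fun b _ => ?_
      by_cases hb : i b = ((i a).1, !(i a).2)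
      · rw [if_pos hb]
        show _ = if s a = s b then v (ext a b (fun c => s c.1) (fr b fun c => s c.1)) else 0
        by_cases hs : s a = s b
        · rw [if_pos ⟨hb, hs⟩, if_pos hs, update_eq_ext, hw b hb _ j fun c => hj c.1]
        · rw [if_neg (fun h => hs h.2), if_neg hs]
      · rw [if_neg (fun h => hb h.1), if_neg hb, Pi.zero_apply]
    rw [hsum]
    refine Submodule.sum_mem _ fun b _ => ?_
    by_cases hb : i b = ((i a).1, !(i a).2)
    · rw [if_pos hb]
      have hcard := card_rest (hne b hb)
      refine ins_mem (hne b hb) hb (IH (Fintype.card (Rest a b)) (by omega) (Rest a b) _ _ rfl (by omega) ?_ q (by omega))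
      exact killed_rest hn hv (hne b hb) _ (hw b hb)
    · rw [if_neg hb]
      exact Submodule.zero_mem _

end Pool.Agent.Helper33.KT
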