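import Pool.Agent.Helper33.KT.Base

/-!
# From the eigenvalues of `U` to the residual eigenvalues (helper33)
-/

open Module Polynomial

namespace Pool.Agent.Helper33.KT

open Pool.Agent.Helper73.KT Pool.Agent.Helper40.PC

/-- The congruence for the numbers of points. -/
theorem points_mod {k A B : Type} [Field k] [Finite k] [CommRing A] [Algebra k A] [CommRing B]
    [Algebra k B] {J : Type} [Fintype J] (a : J → ℂ) (ha : ∀ i, IsIntegral ℤ (a i))
    (g : ℤ[X]) (hg : g.eval 1 = 0)
    (points : ∀ (n : ℕ), 0 < n → ∀ (K : Type) [Field K] [Fintype K] [Algebra k K],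
      finrank k K = n → (Nat.card (A →ₐ[k] K) : ℂ) - Fintype.card K * Nat.card (B →ₐ[k] K) =
        (g.eval (Fintype.card K : ℤ) : ℤ) + ∑ i, a i ^ n)
    {r : ℕ} [Fact r.Prime] (hr : (r : k) ≠ 0) {κ : Type} [Field κ] [CharP κ r]
    (Φ : integralClosure ℤ ℂ →+* κ) (j : ℕ) (hj : 0 < j) (K : Type) [Field K] [Fintype K]
    [Algebra k K] (hK : finrank k K = j * ord k r) :
    (Nat.card (A →ₐ[k] K) : κ) - Nat.card (B →ₐ[k] K) =
      ∑ i, (Φ ⟨a i, ha i⟩ ^ ord k r) ^ j := by
  have hm : 0 < ord k r := ord_pos hr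
  have h1 := points (j * ord k r) (Nat.mul_pos hj hm) K hK
  have h2 : (Nat.card (A →ₐ[k] K) : integralClosure ℤ ℂ) -
      Fintype.card K * Nat.card (B →ₐ[k] K) =
      ((g.eval (Fintype.card K : ℤ) : ℤ) : integralClosure ℤ ℂ) +
        ∑ i, (⟨a i, ha i⟩ : integralClosure ℤ ℂ) ^ (j * ord k r) := by
    apply Subtype.ext
    push_cast
    simpa using h1
  have h3 := congrArg Φ h2
  have hQ : (Fintype.card K : κ) = 1 := card_eq_one (by rw [hK]; exact dvd_mul_left _ _)
  rw [map_sub, map_mul, map_natCast, map_natCast, map_natCast, map_add, map_intCast, map_sum,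
    hQ, one_mul] at h3
  have hg1 : ((g.eval (Fintype.card K : ℤ) : ℤ) : κ) = 0 := by
    have h4 : ((g.eval (Fintype.card K : ℤ) : ℤ) : κ) =
        (g.map (Int.castRingHom κ)).eval (Fintype.card K : κ) := by
      have h5 := Polynomial.eval_map_apply (p := g) (f := Int.castRingHom κ)
        (Fintype.card K : ℤ)
      rw [eq_intCast, eq_intCast, Int.cast_natCast] at h5
      exact h5.symm
    rw [h4, hQ]
    have h6 := Polynomial.eval_map_apply (p := g) (f := Int.castRingHom κ) (1 : ℤ)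
    rw [eq_intCast, eq_intCast, Int.cast_one, hg, Int.cast_zero] at h6
    exact h6
  rw [h3, hg1, zero_add]
  refine Finset.sum_congr rfl fun i _ => ?_
  rw [map_pow, ← pow_mul, mul_comm j]

/-- Frobenius is semisimple if the eigenvalues of `U` are different modulo `r`. -/
theorem semisimple_of_hom {k A B L V ι : Type} [Field k] [Finite k] [CommRing A] [Algebra k A]
    [Algebra.FiniteType k A] [CommRing B] [Algebra k B] [Algebra.FiniteType k B] [Field L]
    [CharZero L] [IsAlgClosed L] [AddCommGroup V] [Module L V] [FiniteDimensional L V]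
    {J : Type} [Fintype J] (a : J → ℂ) (ha : ∀ i, IsIntegral ℤ (a i))
    (g : ℤ[X]) (hg : g.eval 1 = 0)
    (points : ∀ (n : ℕ), 0 < n → ∀ (K : Type) [Field K] [Fintype K] [Algebra k K],
      finrank k K = n → (Nat.card (A →ₐ[k] K) : ℂ) - Fintype.card K * Nat.card (B →ₐ[k] K) =
        (g.eval (Fintype.card K : ℤ) : ℤ) + ∑ i, a i ^ n)
    {r e : ℕ} [Fact r.Prime] (hr : (r : k) ≠ 0)
    (Φ : integralClosure ℤ ℂ →+* AlgebraicClosure (ZMod r))
    (h0 : ∀ i, Φ ⟨a i, ha i⟩ ≠ 0)
    (h1 : ∀ i j, i ≠ j → Φ ⟨a i, ha i⟩ ^ ord k r ≠ Φ ⟨a j, ha j⟩ ^ ord k r)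
    (H : CoverH2 k A B L V ι r e)
    (dim : ∀ i, finrank L (H.W i) + Multiset.card (H.low i) ≤ Fintype.card J) :
    H.Fr.IsSemisimple := by
  classical
  have hinj : Function.Injective fun i => Φ ⟨a i, ha i⟩ ^ ord k r := by
    intro i j hij
    by_contra hne
    exact h1 i j hne hij
  let R : Finset (AlgebraicClosure (ZMod r)) :=
    Finset.univ.image fun i => Φ ⟨a i, ha i⟩ ^ ord k r
  have hR : R.card = Fintype.card J := by
    rw [Finset.card_image_of_injective _ hinj, Finset.card_univ]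
  refine semisimple hr R ?_ ?_ H (by rw [hR]; exact dim)
  · intro h
    obtain ⟨i, -, hi⟩ := Finset.mem_image.1 h
    exact pow_ne_zero _ (h0 i) hi
  · intro j hj K _ _ _ hK
    rw [points_mod a ha g hg points hr Φ j hj K hK,
      Finset.sum_image fun x _ y _ hxy => hinj hxy]

end Pool.Agent.Helper33.KT
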