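import Pool.Agent.Helper73.KT.Ops

/-!
Insertion of a pairing: if `N` is in the span of the products of `q` pairings on the other factors, then the product of `N` with
the pairing of the factors `a` and `b` is in the span of the products of `q + 1` pairings.
-/

set_option autoImplicit false

open Matrix H77MT Pool.Agent.Helper79.KN Pool.Agent.Helper33.KN Pool.Agent.Helper73.KT

namespace Pool.Agent.Helper33.KT

variable {X n K ι : Type} [DecidableEq n] [Field K] [Fintype ι] [DecidableEq ι]

/-- The product of the pairing of `a` and `b` and `N`. -/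
def insL (a b : ι) : ((Rest a b → n) → K) →ₗ[K] ((ι → n) → K) where
  toFun N := fun s => if s a = s b then N (fun c => s c.1) else 0
  map_add' M N := by
    funext s
    simp only [Pi.add_apply]
    split_ifs
    · rfl
    · simp
  map_smul' z M := by
    funext s
    simp only [Pi.smul_apply, smul_eq_mul, RingHom.id_apply]
    split_ifs
    · rfl
    · simp

theorem ins_gen {i : ι → X × Bool} {a b : ι} (hab : a ≠ b) (h : i b = ((i a).1, !(i a).2)) {q : ℕ}
    (f g : Fin q → Rest a b) (hinj : Function.Injective (Sum.elim f g))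
    (hlab : ∀ j, i (g j).1 = ((i (f j).1).1, !(i (f j).1).2)) (N : (Rest a b → n) → K)
    (hN : ∀ s t : Rest a b → n, (∀ c, (∀ j, c ≠ f j ∧ c ≠ g j) → s c = t c) → N s = N t) :
    insL a b (fun s => if ∀ j, s (f j) = s (g j) then N s else 0) ∈ pairs K n i (q + 1) := by
  refine Submodule.subset_span ⟨Fin.cons a fun j => (f j).1, Fin.cons b fun j => (g j).1, ?_, ?_,
    fun s => N fun c => s c.1, ?_, ?_⟩
  · rw [Sum.elim_injective] at hinj ⊢
    obtain ⟨h1, h2, h3⟩ := hinj
    refine ⟨?_, ?_, ?_⟩
    · rw [Fin.cons_injective_iff]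
      refine ⟨?_, fun j j' hj => h1 (Subtype.ext hj)⟩
      rintro ⟨j, hj⟩
      exact (f j).2.1 hj
    · rw [Fin.cons_injective_iff]
      refine ⟨?_, fun j j' hj => h2 (Subtype.ext hj)⟩
      rintro ⟨j, hj⟩
      exact (g j).2.2 hj
    · intro j j'
      refine Fin.cases ?_ (fun j => ?_) j <;> refine Fin.cases ?_ (fun j' => ?_) j'
      · simpa using hab
      · simpa using fun h => (g j').2.1 h.symm
      · simpa using (f j).2.2
      · simpa using fun h => h3 j j' (Subtype.ext h)
  · intro j
    refine Fin.cases ?_ (fun j => ?_) j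
    · simpa using h
    · simpa using hlab j
  · intro s t hst
    refine hN _ _ fun c hc => hst c.1 fun j => ?_
    refine Fin.cases ?_ (fun j => ?_) j
    · simpa using c.2
    · simpa using ⟨fun h => (hc j).1 (Subtype.ext h), fun h => (hc j).2 (Subtype.ext h)⟩
  · intro s
    have key : (∀ j : Fin (q + 1), s ((Fin.cons a fun j => (f j).1 : Fin (q + 1) → ι) j) =
        s ((Fin.cons b fun j => (g j).1 : Fin (q + 1) → ι) j)) ↔ s a = s b ∧ ∀ j, s (f j).1 = s (g j).1 := by
      rw [Fin.forall_fin_succ]
      simp only [Fin.cons_zero, Fin.cons_succ]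
    show (if s a = s b then (if ∀ j, s (f j).1 = s (g j).1 then N fun c => s c.1 else 0) else 0) = _
    by_cases h1 : s a = s b
    · by_cases h2 : ∀ j, s (f j).1 = s (g j).1
      · rw [if_pos h1, if_pos h2, if_pos (key.2 ⟨h1, h2⟩)]
      · rw [if_pos h1, if_neg h2, if_neg fun h => h2 (key.1 h).2]
    · rw [if_neg h1, if_neg fun h => h1 (key.1 h).1]

theorem ins_mem {i : ι → X × Bool} {a b : ι} (hab : a ≠ b) (h : i b = ((i a).1, !(i a).2)) {q : ℕ}
    {N : (Rest a b → n) → K} (hN : N ∈ pairs K n (fun c : Rest a b => i c.1) q) :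
    insL a b N ∈ pairs K n i (q + 1) := by
  suffices hle : pairs K n (fun c : Rest a b => i c.1) q ≤ (pairs K n i (q + 1)).comap (insL a b) from hle hN
  rw [pairs, Submodule.span_le]
  rintro M ⟨f, g, hinj, hlab, N, hN, hM⟩
  rw [SetLike.mem_coe, Submodule.mem_comap, show M = _ from funext hM]
  exact ins_gen hab h f g hinj hlab N hN

end Pool.Agent.Helper33.KT
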