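import Pool.Agent.Helper33.KT.Fft
import Pool.Agent.Helper43.KT.Lie
import Pool.Agent.Helper61.KT.B1

/-!
Stable lines in the tensor powers.
-/

set_option autoImplicit false

open Matrix H77MT Pool.Agent.Helper79.KN Pool.Agent.Helper33.KN Pool.Agent.Helper73.KT

namespace Pool.Agent.Helper33.KT

section killed
variable {X n K ι : Type} [DecidableEq X] [Fintype n] [DecidableEq n] [Field K] [Fintype ι] [DecidableEq ι]

/-- The difference of two coordinates of the weight of one factor. -/
def eta1 (i : ι → X × Bool) (x : X) (c d : n) (a : ι) (j : n) : ℤ :=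
  if (i a).1 = x then (if (i a).2 then (if j = c then 1 else 0) - (if j = d then 1 else 0)
    else (if j = d then 1 else 0) - (if j = c then 1 else 0)) else 0

/-- The difference of two coordinates of the weight. -/
def eta (i : ι → X × Bool) (x : X) (c d : n) (s : ι → n) : ℤ := ∑ a, eta1 i x c d a (s a)

theorem lie_diag_sub (i : ι → X × Bool) (x : X) (c d : n) (v : (ι → n) → K) (s : ι → n) :
    (lie i x c c v - lie i x d d v) s = (eta i x c d s : K) * v s := by
  show (∑ a, if (i a).1 = x then (if (i a).2 then (if s a = c then v (Function.update s a c) else 0)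
      else (if s a = c then -v (Function.update s a c) else 0)) else 0) -
    (∑ a, if (i a).1 = x then (if (i a).2 then (if s a = d then v (Function.update s a d) else 0)
      else (if s a = d then -v (Function.update s a d) else 0)) else 0) = _
  rw [← Finset.sum_sub_distrib, eta, Int.cast_sum, Finset.sum_mul]
  refine Finset.sum_congr rfl fun a _ => ?_
  have hup : ∀ e, s a = e → Function.update s a e = s := fun e h => by rw [← h, Function.update_eq_self]
  rw [eta1]
  by_cases hx : (i a).1 = x
  · rw [if_pos hx, if_pos hx, if_pos hx]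
    by_cases hb : (i a).2 = true
    · rw [if_pos hb, if_pos hb, if_pos hb]
      by_cases hc : s a = c
      · by_cases hd : s a = d
        · rw [if_pos hc, if_pos hd, if_pos hc, if_pos hd, hup c hc, hup d hd]
          simp
        · rw [if_pos hc, if_neg hd, if_pos hc, if_neg hd, hup c hc]
          simp
      · by_cases hd : s a = d
        · rw [if_neg hc, if_pos hd, if_neg hc, if_pos hd, hup d hd]
          simp
        · rw [if_neg hc, if_neg hd, if_neg hc, if_neg hd]
          simp
    · rw [if_neg hb, if_neg hb, if_neg hb]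
      by_cases hc : s a = c
      · by_cases hd : s a = d
        · rw [if_pos hc, if_pos hd, if_pos hc, if_pos hd, hup c hc, hup d hd]
          simp
        · rw [if_pos hc, if_neg hd, if_pos hc, if_neg hd, hup c hc]
          simp
      · by_cases hd : s a = d
        · rw [if_neg hc, if_pos hd, if_neg hc, if_pos hd, hup d hd]
          simp
        · rw [if_neg hc, if_neg hd, if_neg hc, if_neg hd]
          simp
  · rw [if_neg hx, if_neg hx, if_neg hx]
    simp

theorem eta_update (i : ι → X × Bool) (x : X) (c d : n) (s : ι → n) (a : ι) (j : n) :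
    eta i x c d (Function.update s a j) = eta i x c d s - eta1 i x c d a (s a) + eta1 i x c d a j := by
  rw [eta, eta, ← Finset.add_sum_erase _ _ (Finset.mem_univ a), ← Finset.add_sum_erase _ (fun b => eta1 i x c d b (s b))
    (Finset.mem_univ a), Function.update_self]
  have h : ∑ b ∈ Finset.univ.erase a, eta1 i x c d b (Function.update s a j b) =
      ∑ b ∈ Finset.univ.erase a, eta1 i x c d b (s b) := by
    refine Finset.sum_congr rfl fun b hb => ?_
    rw [Function.update_of_ne (Finset.ne_of_mem_erase hb)]
  rw [h]
  ring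

theorem killed [CharZero K] {i : ι → X × Bool} {v : (ι → n) → K} (x : X) (c d : n) (hcd : c ≠ d)
    (h1 : ∃ z : K, lie i x c d v = z • v) (h2 : ∃ z : K, lie i x d c v = z • v) : lie i x c d v = 0 := by
  obtain ⟨z, hz⟩ := h1
  obtain ⟨z', hz'⟩ := h2
  have hcomm := lie_comm i x c d v
  rw [hz, hz', map_smul, map_smul, hz, hz', smul_smul, smul_smul, mul_comm, sub_self] at hcomm
  have hsupp : ∀ s, v s ≠ 0 → eta i x c d s = 0 := by
    intro s hs
    have h := lie_diag_sub i x c d v s
    rw [← hcomm, Pi.zero_apply] at h
    exact_mod_cast (mul_eq_zero.1 h.symm).resolve_right hs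
  funext s
  rw [Pi.zero_apply]
  by_contra hne
  have hvs : v s ≠ 0 := by
    intro h0
    rw [hz, Pi.smul_apply, h0, smul_zero] at hne
    exact hne rfl
  obtain ⟨a, -, ha⟩ := Finset.exists_ne_zero_of_sum_ne_zero (show ∑ a, (if (i a).1 = x then
    (if (i a).2 then (if s a = c then v (Function.update s a d) else 0)
      else (if s a = d then -v (Function.update s a c) else 0)) else 0) ≠ 0 from hne)
  by_cases hx : (i a).1 = x
  · rw [if_pos hx] at ha
    by_cases hb : (i a).2 = true
    · rw [if_pos hb] at ha
      by_cases hc : s a = c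
      · rw [if_pos hc] at ha
        have h := hsupp _ ha
        rw [eta_update, hsupp s hvs, eta1, eta1, if_pos hx, if_pos hx, if_pos hb, if_pos hb, if_pos hc,
          if_neg (by rw [hc]; exact hcd), if_neg hcd.symm, if_pos rfl] at h
        norm_num at h
      · rw [if_neg hc] at ha
        exact ha rfl
    · rw [if_neg hb] at ha
      by_cases hd : s a = d
      · rw [if_pos hd] at ha
        have h := hsupp _ (neg_ne_zero.1 ha)
        rw [eta_update, hsupp s hvs, eta1, eta1, if_pos hx, if_pos hx, if_neg hb, if_neg hb, if_pos hd,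
          if_neg (by rw [hd]; exact hcd.symm), if_neg hcd, if_pos rfl] at h
        norm_num at h
      · rw [if_neg hd] at ha
        exact ha rfl
  · rw [if_neg hx] at ha
    exact ha rfl

end killed

end Pool.Agent.Helper33.KT

namespace Pool.Agent.Helper73.KT

theorem lines {Γ X n K ι : Type} [Group Γ] [Fintype X] [DecidableEq X] [Fintype n] [DecidableEq n] [Field K] [IsAlgClosed K]
    [CharZero K] [Fintype ι] [DecidableEq ι] {ρ : Rep Γ X n K} (hn : Fintype.card ι < Fintype.card n) (hfull : IsFull ρ) :
    Lines ι ρ := by
  intro m c Δ hΔ M hM q hq i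
  refine Pool.Agent.Helper33.KT.fft (Fintype.card ι) ι i (M i) rfl hn ?_ q hq
  have hP : ∀ γ ∈ Δ, ∀ u ∈ Submodule.span K {M}, actTen ρ m c γ u ∈ Submodule.span K {M} := by
    intro γ hγ u hu
    obtain ⟨t, rfl⟩ := Submodule.mem_span_singleton.1 hu
    obtain ⟨z, hz⟩ := hM γ hγ
    have h : actTen ρ m c γ (t • M) = t • actTen ρ m c γ M := by
      funext j
      exact map_smul (tenL fun a => act ρ m c γ (j a)) t (M j)
    rw [h, hz]
    exact Submodule.smul_mem _ _ (Submodule.smul_mem _ _ (Submodule.mem_span_singleton_self M))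
  have hst := block_stab hfull hΔ hP i
  have hmem : M i ∈ (Submodule.span K {M}).map (evTen i) := ⟨M, Submodule.mem_span_singleton_self M, rfl⟩
  have hz : ∀ x c d, c ≠ d → ∃ z : K, lie i x c d (M i) = z • M i := by
    intro x c d hcd
    obtain ⟨u, hu, hu'⟩ := lie_stab hst x hcd _ hmem
    obtain ⟨t, rfl⟩ := Submodule.mem_span_singleton.1 hu
    exact ⟨t, hu'.symm⟩
  exact fun x c d hcd => Pool.Agent.Helper33.KT.killed x c d hcd (hz x c d hcd) (hz x d c hcd.symm)

end Pool.Agent.Helper73.KT
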