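import Pool.Agent.Helper33.KT.Wide

/-!
# The complement of a plane curve (helper33)
-/

open Module Polynomial

namespace Pool.Agent.Helper33.KT

open Pool.Agent.Helper73.KT Pool.Agent.Helper40.PC

/-- The points of the complement of `f = 0` in the plane. -/
theorem card_compl {k : Type} [Field k] (f : MvPolynomial (Fin 2) k) (K : Type) [Field K]
    [Fintype K] [Algebra k K] :
    Nat.card (Localization.Away f →ₐ[k] K) + Nat.card {z : Fin 2 → K // MvPolynomial.aeval z f = 0} =
      Fintype.card K ^ 2 := by
  classical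
  let P := MvPolynomial (Fin 2) k
  let A := Localization.Away f
  have h1 : ∀ φ : A →ₐ[k] K, MvPolynomial.aeval (fun i => φ (algebraMap P A (MvPolynomial.X i))) f
      ≠ 0 := by
    intro φ h
    have h2 : ∀ p : P, MvPolynomial.aeval (fun i => φ (algebraMap P A (MvPolynomial.X i))) p =
        φ (algebraMap P A p) := by
      intro p
      have h3 : MvPolynomial.aeval (fun i => φ (algebraMap P A (MvPolynomial.X i))) =
          φ.comp (Algebra.ofId P A |>.restrictScalars k) := by
        apply MvPolynomial.algHom_ext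
        intro i
        rw [MvPolynomial.aeval_X]
        rfl
      rw [h3]
      rfl
    rw [h2] at h
    have h4 : IsUnit (algebraMap P A f) := IsLocalization.Away.algebraMap_isUnit f
    exact (h4.map φ).ne_zero h
  let F : (A →ₐ[k] K) → {z : Fin 2 → K // MvPolynomial.aeval z f ≠ 0} := fun φ => ⟨_, h1 φ⟩
  have hF : Function.Bijective F := by
    constructor
    · intro φ ψ h
      have h2 : ∀ i, φ (algebraMap P A (MvPolynomial.X i)) = ψ (algebraMap P A (MvPolynomial.X i)) :=
        fun i => congrFun (congrArg Subtype.val h) i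
      have h3 : (φ : A →+* K).comp (algebraMap P A) = (ψ : A →+* K).comp (algebraMap P A) := by
        apply MvPolynomial.ringHom_ext
        · intro c
          have h4 : algebraMap P A (MvPolynomial.C c) = algebraMap k A c :=
            (IsScalarTower.algebraMap_apply k P A c).symm
          change φ (algebraMap P A (MvPolynomial.C c)) = ψ (algebraMap P A (MvPolynomial.C c))
          rw [h4, φ.commutes, ψ.commutes]
        · intro i
          exact h2 i
      have h4 := IsLocalization.ringHom_ext (Submonoid.powers f) h3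
      exact DFunLike.ext _ _ fun x => RingHom.congr_fun h4 x
    · rintro ⟨z, hz⟩
      have hu : IsUnit ((MvPolynomial.aeval (R := k) z : P →ₐ[k] K) f) := isUnit_iff_ne_zero.2 hz
      let ρ : A →+* K := IsLocalization.Away.lift (S := A) f
        (g := ((MvPolynomial.aeval z : P →ₐ[k] K) : P →+* K)) hu
      have hρ : ∀ p : P, ρ (algebraMap P A p) = MvPolynomial.aeval z p := fun p =>
        IsLocalization.Away.lift_eq f hu p
      let φ : A →ₐ[k] K := { ρ with
        commutes' := by
          intro c
          change ρ (algebraMap k A c) = _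
          rw [IsScalarTower.algebraMap_apply k P A c, hρ, AlgHom.commutes] }
      refine ⟨φ, Subtype.ext (funext fun i => ?_)⟩
      change ρ (algebraMap P A (MvPolynomial.X i)) = z i
      rw [hρ, MvPolynomial.aeval_X]
  have h2 := Fintype.card_subtype_compl fun z : Fin 2 → K => MvPolynomial.aeval z f = 0
  have h3 := Fintype.card_subtype_le fun z : Fin 2 → K => MvPolynomial.aeval z f = 0
  rw [Nat.card_congr (Equiv.ofBijective F hF), Nat.card_eq_fintype_card,
    Nat.card_eq_fintype_card]
  have h4 : Fintype.card (Fin 2 → K) = Fintype.card K ^ 2 := by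
    rw [Fintype.card_fun, Fintype.card_fin]
  rw [← h4]
  change Fintype.card {z : Fin 2 → K // ¬ MvPolynomial.aeval z f = 0} + _ = _
  rw [h2]
  omega

/-- **Plane curves.** -/
theorem plane_of {k : Type} [Field k] (f : MvPolynomial (Fin 2) k)
    {J : Type} [Fintype J] (a : J → ℂ)
    (points : ∀ (n : ℕ), 0 < n → ∀ (K : Type) [Field K] [Fintype K] [Algebra k K],
      finrank k K = n → (Nat.card {z : Fin 2 → K // MvPolynomial.aeval z f = 0} : ℂ) =
        Fintype.card K - ∑ i, a i ^ n) :
    ∀ (n : ℕ), 0 < n → ∀ (K : Type) [Field K] [Fintype K] [Algebra k K],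
      finrank k K = n → (Nat.card (Localization.Away f →ₐ[k] K) : ℂ) -
        Fintype.card K * Nat.card (PUnit.{1} →ₐ[k] K) =
        ∑ i, (((fun o : Option J => o.elim (X ^ 2 - X : ℤ[X]) fun _ => 1) i).eval
          (Fintype.card K : ℤ) : ℤ) * (fun o : Option J => o.elim (1 : ℂ) a) i ^ n := by
  intro n hn K _ _ _ hK
  have h1 : Nat.card (PUnit.{1} →ₐ[k] K) = 0 := by
    have : IsEmpty (PUnit.{1} →ₐ[k] K) := ⟨fun φ => one_ne_zero
      (((map_one φ).symm.trans (congrArg φ (Subsingleton.elim _ _))).trans (map_zero φ))⟩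
    exact Nat.card_of_isEmpty
  have h2 := card_compl f K
  have h3 := points n hn K hK
  have h4 : (Nat.card (Localization.Away f →ₐ[k] K) : ℂ) =
      (Fintype.card K : ℂ) ^ 2 - Nat.card {z : Fin 2 → K // MvPolynomial.aeval z f = 0} := by
    rw [eq_sub_iff_add_eq]
    exact_mod_cast h2
  rw [h1, h4, h3, Fintype.sum_option]
  simp only [Option.elim_none, Option.elim_some, eval_sub, eval_pow, eval_X, eval_one, one_pow,
    mul_one, Int.cast_one, one_mul]
  push_cast
  ring

/-- **Cyclic covers of the plane**: `f(x, y) = 0` with `|C(K)| = |K| - ∑ a_i ^ n`, no quotient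
`a_i / a_j`, `i ≠ j`, a positive real number. -/
theorem plane {k : Type} [Field k] [Finite k] (f : MvPolynomial (Fin 2) k)
    {J : Type} [Fintype J] (a : J → ℂ) (ha : ∀ i, IsIntegral ℤ (a i)) (ha0 : ∀ i, a i ≠ 0)
    (hprimes : ∀ (J' : Type) [Fintype J'] (a' : J' → ℂ) (ha' : ∀ i, IsIntegral ℤ (a' i)),
      StmtPrimes a' ha')
    (ratio : ∀ i j, i ≠ j → ∀ t : ℝ, 0 < t → a i ≠ t * a j)
    (points : ∀ (n : ℕ), 0 < n → ∀ (K : Type) [Field K] [Fintype K] [Algebra k K],
      finrank k K = n → (Nat.card {z : Fin 2 → K // MvPolynomial.aeval z f = 0} : ℂ) =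
        Fintype.card K - ∑ i, a i ^ n) :
    ∃ R : Set ℕ, (∀ r ∈ R, r.Prime) ∧ ¬ Summable (fun r : R => (1 : ℝ) / (r : ℕ)) ∧
      ∀ r ∈ R, ∀ (e : ℕ) (L V ι : Type) [Field L] [CharZero L] [IsAlgClosed L]
        [AddCommGroup V] [Module L V] [FiniteDimensional L V]
        (H : CoverH2 k (Localization.Away f) PUnit.{1} L V ι r e),
        (∀ i, finrank L (H.W i) + Multiset.card (H.low i) ≤ Fintype.card J) →
          H.Fr.IsSemisimple := by
  classical
  have : Algebra.FiniteType k (Localization.Away f) :=
    Algebra.FiniteType.trans (S := MvPolynomial (Fin 2) k) inferInstance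
      (IsLocalization.finiteType_of_monoid_fg (Submonoid.powers f) _)
  let a' : Option J → ℂ := fun o => o.elim 1 a
  let g' : Option J → ℤ[X] := fun o => o.elim (X ^ 2 - X) fun _ => 1
  have hg0 : (g' none).eval 1 = 0 := by simp [g']
  have hg1 : ∀ i, (g' (some i)).eval 1 = 1 := fun i => by simp [g']
  have ha' : ∀ i, IsIntegral ℤ (a' i) := by
    rintro (_ | i)
    · exact isIntegral_one
    · exact ha i
  obtain ⟨R, h1, h2, h3⟩ := towers_wide (A := Localization.Away f) (B := PUnit.{1}) a' ha' g'
    (by
      rintro (_ | i)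
      · exact Or.inl hg0
      · exact Or.inr (hg1 i))
    (by
      rintro (_ | i) hi
      · rw [hg0] at hi; exact absurd hi (by norm_num)
      · exact ha0 i)
    (by
      have := Fintype.ofFinite {i // (g' i).eval 1 = 1}
      exact hprimes _ (fun i : {i // (g' i).eval 1 = 1} => a' i) (fun i => ha' i))
    (by
      rintro (_ | i) (_ | j) hi hj hij
      · exact absurd rfl hij
      · rw [hg0] at hi; exact absurd hi (by norm_num)
      · rw [hg0] at hj; exact absurd hj (by norm_num)
      · exact ratio i j fun h => hij (congrArg some h))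
    (plane_of f a points)
  refine ⟨R, h1, h2, ?_⟩
  intro r hr e L V ι _ _ _ _ _ _ H dim
  refine h3 r hr e L V ι H fun i => (dim i).trans (le_of_eq ?_)
  rw [← Nat.card_eq_fintype_card]
  refine Nat.card_congr (Equiv.ofBijective (fun i : J => (⟨some i, hg1 i⟩ :
    {i // (g' i).eval 1 = 1})) ⟨?_, ?_⟩)
  · intro i j hij
    exact Option.some_injective _ (congrArg Subtype.val hij)
  · rintro ⟨_ | i, hi⟩
    · rw [hg0] at hi; exact absurd hi (by norm_num)
    · exact ⟨i, rfl⟩

end Pool.Agent.Helper33.KT
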