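import Pool.Agent.Helper33.KT.Glue

/-!
# Kummer towers: the theorem from the existence of the primes (helper33)
-/

open Module Polynomial

namespace Pool.Agent.Helper33.KT

open Pool.Agent.Helper73.KT Pool.Agent.Helper40.PC

/-- helper21's `exists_primes` for the family `a`. -/
def StmtPrimes {J : Type} (a : J → ℂ) (ha : ∀ i, IsIntegral ℤ (a i)) : Prop :=
  (∀ i, a i ≠ 0) → ∀ q : ℕ, q ≠ 0 → ∀ B : ℕ,
    ∃ R : Set ℕ, (∀ r ∈ R, r.Prime) ∧ ¬ Summable (fun r : R => (1 : ℝ) / (r : ℕ)) ∧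
      ∀ r ∈ R, B < r ∧ Odd ((r - 1) / 2) ∧ (q : ZMod r) ^ ((r - 1) / 2) = 1 ∧
        ∀ [Fact r.Prime], ∃ Φ : integralClosure ℤ ℂ →+* AlgebraicClosure (ZMod r),
          (∀ i, Φ ⟨a i, ha i⟩ ≠ 0) ∧
          ∀ i j : J, (∀ t : ℝ, 0 < t → a i ≠ t * a j) → ∀ s,
            Φ ⟨a i, ha i⟩ ^ ((r - 1) / 2 * r ^ s) ≠ Φ ⟨a j, ha j⟩ ^ ((r - 1) / 2 * r ^ s)

theorem towers {k A B : Type} [Field k] [Finite k] [CommRing A] [Algebra k A]
    [Algebra.FiniteType k A] [CommRing B] [Algebra k B] [Algebra.FiniteType k B]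
    {J : Type} [Fintype J] (a : J → ℂ) (ha : ∀ i, IsIntegral ℤ (a i)) (ha0 : ∀ i, a i ≠ 0)
    (hprimes : StmtPrimes a ha)
    (ratio : ∀ i j, i ≠ j → ∀ t : ℝ, 0 < t → a i ≠ t * a j)
    (g : ℤ[X]) (hg : g.eval 1 = 0)
    (points : ∀ (n : ℕ), 0 < n → ∀ (K : Type) [Field K] [Fintype K] [Algebra k K],
      finrank k K = n → (Nat.card (A →ₐ[k] K) : ℂ) - Fintype.card K * Nat.card (B →ₐ[k] K) =
        (g.eval (Fintype.card K : ℤ) : ℤ) + ∑ i, a i ^ n) :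
    ∃ R : Set ℕ, (∀ r ∈ R, r.Prime) ∧ ¬ Summable (fun r : R => (1 : ℝ) / (r : ℕ)) ∧
      ∀ r ∈ R, ∀ (e : ℕ) (L V ι : Type) [Field L] [CharZero L] [IsAlgClosed L]
        [AddCommGroup V] [Module L V] [FiniteDimensional L V] (H : CoverH2 k A B L V ι r e),
        (∀ i, finrank L (H.W i) + Multiset.card (H.low i) ≤ Fintype.card J) →
          H.Fr.IsSemisimple := by
  obtain ⟨R, hRp, hRs, hR⟩ := hprimes ha0 (Nat.card k) (Nat.card_pos).ne' (Nat.card k)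
  refine ⟨R, hRp, hRs, ?_⟩
  intro r hr e L V ι _ _ _ _ _ _ H dim
  have hrp : r.Prime := hRp r hr
  have : Fact r.Prime := ⟨hrp⟩
  obtain ⟨hB, -, hq, hΦ⟩ := hR r hr
  obtain ⟨Φ, h0, h1⟩ := hΦ
  have hrk : (r : k) ≠ 0 := by
    intro h
    obtain ⟨p, hp⟩ := CharP.exists k
    have hpp : p.Prime := CharP.char_is_prime k p
    have := Fintype.ofFinite k
    obtain ⟨n, -, hn⟩ := FiniteField.card k p
    rw [CharP.cast_eq_zero_iff k p] at h
    have h2 : p = r := (Nat.prime_dvd_prime_iff_eq hpp hrp).1 h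
    have h3 : Nat.card k = p ^ (n : ℕ) := by rw [Nat.card_eq_fintype_card, hn]
    have h4 : p ≤ p ^ (n : ℕ) := Nat.le_self_pow n.ne_zero p
    omega
  refine semisimple_of_hom a ha g hg points hrk Φ h0 ?_ H dim
  intro i j hij heq
  obtain ⟨c, hc⟩ : ord k r ∣ (r - 1) / 2 := orderOf_dvd_of_pow_eq_one hq
  refine h1 i j (ratio i j hij) 0 ?_
  rw [pow_zero, mul_one, hc, pow_mul, heq, ← pow_mul]

end Pool.Agent.Helper33.KT
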