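import Pool.Agent.Helper33.KT.Towers

/-!
# Kummer towers: numbers of points with polynomial coefficients (helper33)

The eigenvalues `q ^ j * a` for different `j` agree modulo `r`: only the sum of their signed
multiplicities counts.
-/

open Module Polynomial

namespace Pool.Agent.Helper33.KT

open Pool.Agent.Helper73.KT Pool.Agent.Helper40.PC

theorem eval_mod {κ : Type} [Field κ] (g : ℤ[X]) {c : ℕ} (hc : (c : κ) = 1) :
    ((g.eval (c : ℤ) : ℤ) : κ) = ((g.eval 1 : ℤ) : κ) := by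
  have h5 := Polynomial.eval_map_apply (p := g) (f := Int.castRingHom κ) (c : ℤ)
  have h6 := Polynomial.eval_map_apply (p := g) (f := Int.castRingHom κ) (1 : ℤ)
  rw [eq_intCast, eq_intCast, Int.cast_natCast, hc] at h5
  rw [eq_intCast, eq_intCast, Int.cast_one] at h6
  rw [← h5, ← h6]

/-- The congruence for the numbers of points. -/
theorem points_mod_wide {k A B : Type} [Field k] [Finite k] [CommRing A] [Algebra k A]
    [CommRing B] [Algebra k B] {J : Type} [Fintype J] (a : J → ℂ)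
    (ha : ∀ i, IsIntegral ℤ (a i)) (g : J → ℤ[X])
    (points : ∀ (n : ℕ), 0 < n → ∀ (K : Type) [Field K] [Fintype K] [Algebra k K],
      finrank k K = n → (Nat.card (A →ₐ[k] K) : ℂ) - Fintype.card K * Nat.card (B →ₐ[k] K) =
        ∑ i, ((g i).eval (Fintype.card K : ℤ) : ℤ) * a i ^ n)
    {r : ℕ} [Fact r.Prime] (hr : (r : k) ≠ 0) {κ : Type} [Field κ] [CharP κ r]
    (Φ : integralClosure ℤ ℂ →+* κ) (j : ℕ) (hj : 0 < j) (K : Type) [Field K] [Fintype K]
    [Algebra k K] (hK : finrank k K = j * ord k r) :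
    (Nat.card (A →ₐ[k] K) : κ) - Nat.card (B →ₐ[k] K) =
      ∑ i, (((g i).eval 1 : ℤ) : κ) * (Φ ⟨a i, ha i⟩ ^ ord k r) ^ j := by
  have hm : 0 < ord k r := ord_pos hr
  have h1 := points (j * ord k r) (Nat.mul_pos hj hm) K hK
  have h2 : (Nat.card (A →ₐ[k] K) : integralClosure ℤ ℂ) -
      Fintype.card K * Nat.card (B →ₐ[k] K) =
      ∑ i, (((g i).eval (Fintype.card K : ℤ) : ℤ) : integralClosure ℤ ℂ) *
        (⟨a i, ha i⟩ : integralClosure ℤ ℂ) ^ (j * ord k r) := by
    apply Subtype.ext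
    push_cast
    simpa using h1
  have h3 := congrArg Φ h2
  have hQ : (Fintype.card K : κ) = 1 := card_eq_one (by rw [hK]; exact dvd_mul_left _ _)
  rw [map_sub, map_mul, map_natCast, map_natCast, map_natCast, map_sum, hQ, one_mul] at h3
  rw [h3]
  refine Finset.sum_congr rfl fun i _ => ?_
  rw [map_mul, map_intCast, eval_mod (g i) hQ, map_pow, ← pow_mul, mul_comm j]

/-- The theorem from the existence of the primes. -/
theorem towers_wide {k A B : Type} [Field k] [Finite k] [CommRing A] [Algebra k A]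
    [Algebra.FiniteType k A] [CommRing B] [Algebra k B] [Algebra.FiniteType k B]
    {J : Type} [Fintype J] (a : J → ℂ) (ha : ∀ i, IsIntegral ℤ (a i)) (g : J → ℤ[X])
    (hg : ∀ i, (g i).eval 1 = 0 ∨ (g i).eval 1 = 1)
    (ha0 : ∀ i, (g i).eval 1 = 1 → a i ≠ 0)
    (hprimes : StmtPrimes (fun i : {i // (g i).eval 1 = 1} => a i) (fun i => ha i))
    (ratio : ∀ i j, (g i).eval 1 = 1 → (g j).eval 1 = 1 → i ≠ j →
      ∀ t : ℝ, 0 < t → a i ≠ t * a j)
    (points : ∀ (n : ℕ), 0 < n → ∀ (K : Type) [Field K] [Fintype K] [Algebra k K],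
      finrank k K = n → (Nat.card (A →ₐ[k] K) : ℂ) - Fintype.card K * Nat.card (B →ₐ[k] K) =
        ∑ i, ((g i).eval (Fintype.card K : ℤ) : ℤ) * a i ^ n) :
    ∃ R : Set ℕ, (∀ r ∈ R, r.Prime) ∧ ¬ Summable (fun r : R => (1 : ℝ) / (r : ℕ)) ∧
      ∀ r ∈ R, ∀ (e : ℕ) (L V ι : Type) [Field L] [CharZero L] [IsAlgClosed L]
        [AddCommGroup V] [Module L V] [FiniteDimensional L V] (H : CoverH2 k A B L V ι r e),
        (∀ i, finrank L (H.W i) + Multiset.card (H.low i) ≤ Nat.card {i // (g i).eval 1 = 1}) →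
          H.Fr.IsSemisimple := by
  classical
  obtain ⟨R, hRp, hRs, hR⟩ := hprimes (fun i => ha0 i i.2) (Nat.card k) (Nat.card_pos).ne'
    (Nat.card k)
  refine ⟨R, hRp, hRs, ?_⟩
  intro r hr e L V ι _ _ _ _ _ _ H dim
  have hrp : r.Prime := hRp r hr
  have : Fact r.Prime := ⟨hrp⟩
  obtain ⟨hB, -, hq, hΦ⟩ := hR r hr
  obtain ⟨Φ, h0, h1⟩ := hΦ
  have hrk : (r : k) ≠ 0 := by
    intro h
    obtain ⟨p, hp⟩ := CharP.exists k
    have hpp : p.Prime := CharP.char_is_prime k p
    have := Fintype.ofFinite k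
    obtain ⟨n, -, hn⟩ := FiniteField.card k p
    rw [CharP.cast_eq_zero_iff k p] at h
    have h2 : p = r := (Nat.prime_dvd_prime_iff_eq hpp hrp).1 h
    have h3 : Nat.card k = p ^ (n : ℕ) := by rw [Nat.card_eq_fintype_card, hn]
    have h4 : p ≤ p ^ (n : ℕ) := Nat.le_self_pow n.ne_zero p
    omega
  let b : {i // (g i).eval 1 = 1} → AlgebraicClosure (ZMod r) :=
    fun i => Φ ⟨a i, ha i⟩ ^ ord k r
  have hinj : Function.Injective b := by
    intro i j hij
    by_contra hne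
    obtain ⟨c, hc⟩ : ord k r ∣ (r - 1) / 2 := orderOf_dvd_of_pow_eq_one hq
    refine h1 i j (ratio i j i.2 j.2 fun h => hne (Subtype.ext h)) 0 ?_
    have hij' : Φ ⟨a i, ha i⟩ ^ ord k r = Φ ⟨a j, ha j⟩ ^ ord k r := hij
    rw [pow_zero, mul_one, hc, pow_mul, hij', ← pow_mul]
  let S : Finset (AlgebraicClosure (ZMod r)) := Finset.univ.image b
  have hS : S.card = Nat.card {i // (g i).eval 1 = 1} := by
    rw [Finset.card_image_of_injective _ hinj, Finset.card_univ, Nat.card_eq_fintype_card]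
  refine semisimple hrk S ?_ ?_ H (by rw [hS]; exact dim)
  · intro h
    obtain ⟨i, -, hi⟩ := Finset.mem_image.1 h
    exact pow_ne_zero _ (h0 i) hi
  · intro j hj K _ _ _ hK
    rw [points_mod_wide a ha g points hrk Φ j hj K hK,
      Finset.sum_image fun x _ y _ hxy => hinj hxy]
    have h2 : ∀ i, (((g i).eval 1 : ℤ) : AlgebraicClosure (ZMod r)) *
        (Φ ⟨a i, ha i⟩ ^ ord k r) ^ j = if (g i).eval 1 = 1 then
          (Φ ⟨a i, ha i⟩ ^ ord k r) ^ j else 0 := by
      intro i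
      rcases hg i with h | h
      · rw [h, if_neg (by norm_num), Int.cast_zero, zero_mul]
      · rw [h, if_pos rfl, Int.cast_one, one_mul]
    rw [Finset.sum_congr rfl fun i _ => h2 i, ← Finset.sum_filter]
    exact Finset.sum_subtype _ (by simp) _

end Pool.Agent.Helper33.KT
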